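import Pool.Agent.helper44.EX.Spec2

/-! Module ex:BA2 (helper11): the visits before the time `T`. -/

set_option autoImplicit false

open Complex Metric Set Filter Topology MeasureTheory Pool.Agent.helper98.ILF

noncomputable section

namespace EX

theorem BA2_ff (n : ℕ) (c : ℂ) : ContDiff ℂ 1 (ff n c) := by
  have h : ContDiff ℂ 1 (fun z : ℂ => z ^ n + c) := (contDiff_id.pow n).add contDiff_const
  exact h

theorem BA2_it (n : ℕ) (c : ℂ) (k : ℕ) : ContDiff ℂ 1 ((ff n c)^[k]) := by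
  induction k with
  | zero => exact contDiff_id
  | succ k ih =>
    rw [Function.iterate_succ']
    exact (BA2_ff n c).comp ih

theorem BA2_der (n : ℕ) (c x : ℂ) (hn : 1 ≤ n) (hx : ∀ k, (ff n c)^[k] x ≠ 0) (k : ℕ) :
    ∃ d : ℂ, d ≠ 0 ∧ HasDerivAt ((ff n c)^[k]) d x := by
  induction k with
  | zero => exact ⟨1, one_ne_zero, hasDerivAt_id x⟩
  | succ k ih =>
    obtain ⟨d, hd, h⟩ := ih
    rw [Function.iterate_succ']
    have h2 : HasDerivAt (ff n c) ((n : ℂ) * ((ff n c)^[k] x) ^ (n - 1)) ((ff n c)^[k] x) := by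
      have h3 := (hasDerivAt_pow n ((ff n c)^[k] x)).add_const c
      exact h3
    have hn0 : (n : ℂ) ≠ 0 := by
      have : n ≠ 0 := by omega
      exact_mod_cast this
    exact ⟨_, mul_ne_zero (mul_ne_zero hn0 (pow_ne_zero _ (hx k))) hd, h2.comp x h⟩

theorem BA2_loc (n : ℕ) (c x : ℂ) (hn : 1 ≤ n) (hx : ∀ k, (ff n c)^[k] x ≠ 0) (k : ℕ) :
    ∃ ε > (0 : ℝ), ∃ χ : ℂ → ℂ, DifferentiableOn ℂ χ (ball ((ff n c)^[k] x) ε) ∧
      χ ((ff n c)^[k] x) = x ∧ ∀ w ∈ ball ((ff n c)^[k] x) ε, (ff n c)^[k] (χ w) = w := by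
  obtain ⟨d, hd, h⟩ := BA2_der n c x hn hx k
  have hc : ContDiffAt ℂ 1 ((ff n c)^[k]) x := (BA2_it n c k).contDiffAt
  have hf : HasFDerivAt ((ff n c)^[k])
      ((ContinuousLinearEquiv.unitsEquivAut ℂ (Units.mk0 d hd) : ℂ ≃L[ℂ] ℂ) : ℂ →L[ℂ] ℂ) x := by
    exact h.hasFDerivAt
  have h1 : (1 : WithTop ℕ∞) ≠ 0 := one_ne_zero
  have hs := hc.hasStrictFDerivAt' hf h1
  have hinv : ContDiffAt ℂ 1 (hc.localInverse hf h1) ((ff n c)^[k] x) := hc.to_localInverse hf h1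
  have hdiff : ∀ᶠ y in 𝓝 ((ff n c)^[k] x), DifferentiableAt ℂ (hc.localInverse hf h1) y := by
    have h2 := hinv.eventually (by simp)
    exact h2.mono fun y hy => hy.differentiableAt h1
  have hright : ∀ᶠ y in 𝓝 ((ff n c)^[k] x), (ff n c)^[k] (hc.localInverse hf h1 y) = y :=
    hs.eventually_right_inverse
  obtain ⟨ε, hε, hball⟩ := Metric.eventually_nhds_iff_ball.1 (hdiff.and hright)
  exact ⟨ε, hε, hc.localInverse hf h1, fun y hy => (hball y hy).1.differentiableWithinAt,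
    hc.localInverse_apply_image hf h1, fun w hw => (hball w hw).2⟩

theorem BA2_min (T : ℕ) (e : ℕ → ℝ) (he : ∀ k, 0 < e k) : ∃ ρ > (0 : ℝ), ∀ k < T, ρ ≤ e k := by
  induction T with
  | zero => exact ⟨1, one_pos, fun k hk => absurd hk (Nat.not_lt_zero k)⟩
  | succ T ih =>
    obtain ⟨ρ, hρ, h⟩ := ih
    refine ⟨min ρ (e T), lt_min hρ (he T), fun k hk => ?_⟩
    rcases Nat.lt_succ_iff_lt_or_eq.1 hk with h1 | h1
    · exact (min_le_left _ _).trans (h k h1)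
    · rw [h1]
      exact min_le_right _ _

theorem BA2 (hM : MOB_stmt) (h1 : V3.KO1_stmt) (h3 : V3.KO3_stmt) : BA2_stmt := by
  intro n c x R1 R T hn hR1 hR1R hR hx
  obtain ⟨C1, hC1, hK1⟩ := h1
  obtain ⟨C3, hC3, hK3⟩ := h3 (1 - R) (by linarith) (by linarith)
  have hC1p : (0 : ℝ) < C1 := by linarith
  have hC3p : (0 : ℝ) < C3 := by linarith
  choose ε hε χ hχd hχx hχ using BA2_loc n c x hn hx
  obtain ⟨ρ, hρ, hmin⟩ := BA2_min T (fun k => min (ε k) ‖(ff n c)^[k] x‖)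
    (fun k => lt_min (hε k) (norm_pos_iff.2 (hx k)))
  have hr : 0 < ρ / (2 * (C3 * C1)) := by positivity
  refine ⟨ρ / (2 * (C3 * C1)), hr, ?_⟩
  intro φ hφ hinj h0 hV k hk a ha hka
  -- the basic estimate
  have key : ∀ Φ : ℂ → ℂ, DifferentiableOn ℂ Φ (ball 0 1) → InjOn Φ (ball 0 1) →
      Φ '' ball 0 1 ⊆ φ '' ball 0 1 → ∀ z ∈ ball (0 : ℂ) R, ‖Φ z - Φ 0‖ < ρ := by
    intro Φ hd hi hsub z hz
    have e1 := hK1 Φ 0 1 one_pos hd hi
    have e2 : ‖deriv Φ 0‖ < C1 * (ρ / (2 * (C3 * C1))) := by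
      by_contra hcon
      push Not at hcon
      refine hV (Φ 0) (fun w hw => hsub (e1 ?_))
      refine ball_subset_ball ?_ hw
      rw [one_mul, le_div_iff₀ hC1p, mul_comm]
      exact hcon
    have e3 := (hK3 Φ 0 1 one_pos hd hi).2 z (by
      rw [sub_sub_cancel, mul_one]
      exact hz)
    have e4 : ‖Φ z - Φ 0‖ ≤ C3 * ‖z - 0‖ * ‖deriv Φ 0‖ := e3.2.2.1
    have hz1 : ‖z - 0‖ ≤ 1 := by
      rw [sub_zero]
      have := mem_ball_zero_iff.1 hz
      linarith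
    have e5 : C3 * ‖z - 0‖ * ‖deriv Φ 0‖ ≤ C3 * 1 * (C1 * (ρ / (2 * (C3 * C1)))) := by
      apply mul_le_mul
      · exact mul_le_mul_of_nonneg_left hz1 hC3p.le
      · exact e2.le
      · exact norm_nonneg _
      · positivity
    have e6 : C3 * 1 * (C1 * (ρ / (2 * (C3 * C1)))) = ρ / 2 := by
      field_simp
    linarith
  obtain ⟨m1, m2, m3, m4, m5, m6, m7, m8, m9⟩ := hM a ha
  have hΦd : DifferentiableOn ℂ (fun z => φ (tau a z)) (ball 0 1) := hφ.comp m2 m3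
  have hΦi : InjOn (fun z => φ (tau a z)) (ball 0 1) := by
    intro z hz w hw hzw
    exact m4 hz hw (hinj (m3 hz) (m3 hw) hzw)
  have hΦs : (fun z => φ (tau a z)) '' ball 0 1 ⊆ φ '' ball 0 1 := by
    rintro _ ⟨z, hz, rfl⟩
    exact ⟨tau a z, m3 hz, rfl⟩
  have hmk := hmin k hk
  have hm1 : ρ ≤ ε k := hmk.trans (min_le_left _ _)
  have hm2 : ρ ≤ ‖(ff n c)^[k] x‖ := hmk.trans (min_le_right _ _)
  have hbase : φ (tau a 0) = (ff n c)^[k] x := by
    rw [m5, hka]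
  refine ⟨?_, fun z => χ k (φ (tau a z)), ?_, ?_, ?_⟩
  · by_contra hcon
    push Not at hcon
    have h2 := key φ hφ hinj (subset_refl _) a (mem_ball_zero_iff.2 (by linarith))
    rw [h0, sub_zero, ← hka] at h2
    linarith
  · refine (hχd k).comp (hΦd.mono (ball_subset_ball hR.le)) ?_
    intro z hz
    rw [mem_ball, dist_eq_norm, ← hbase]
    exact lt_of_lt_of_le (key _ hΦd hΦi hΦs z hz) hm1
  · show χ k (φ (tau a 0)) = x
    rw [hbase]
    exact hχx k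
  · intro z hz
    refine hχ k _ ?_
    rw [mem_ball, dist_eq_norm, ← hbase]
    exact lt_of_lt_of_le (key _ hΦd hΦi hΦs z hz) hm1

end EX
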